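import Pool.Agent.helper12.DD.Spec2

/-! BVV: central characters of subgroups of wreath products vanish modulo `M` outside the base
group. -/

set_option autoImplicit false

open Pool.Agent.helper49.Blk

namespace Pool.Agent.DD

/-- The pointwise stabiliser part: if `h` commutes with `(b, c)`, `c ≠ 1`, and `h 1 = 1`, then
`h = 1`. -/
theorem BVV_ker {G Q : Type} [Group G] [Group Q] [Fintype Q] (hq : (Nat.card Q).Prime)
    (w u : Wr G Q) (hw : w.right ≠ 1) (hu : u.right = 1) (hc : u * w = w * u)
    (h1 : u.left 1 = 1) : u = 1 := by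
  have hstep : ∀ t : Q, u.left (w.right⁻¹ * t) = (w.left t)⁻¹ * u.left t * w.left t := by
    intro t
    have h2 : (u * w).left t = (w * u).left t := by rw [hc]
    rw [SemidirectProduct.mul_left, SemidirectProduct.mul_left, hu, map_one] at h2
    have h3 : u.left t * w.left t = w.left t * u.left (w.right⁻¹ * t) := h2
    rw [mul_assoc, h3, inv_mul_cancel_left]
  have hstep1 : ∀ t : Q, u.left t = 1 → u.left (w.right⁻¹ * t) = 1 := by
    intro t ht
    rw [hstep t, ht, mul_one, inv_mul_cancel]
  have hk : ∀ k : ℕ, u.left (w.right⁻¹ ^ k) = 1 := by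
    intro k
    induction k with
    | zero => simpa using h1
    | succ k ih => rw [pow_succ']; exact hstep1 _ ih
  have hgen : ∀ t : Q, ∃ k : ℕ, w.right⁻¹ ^ k = t := by
    intro t
    have : Fact (Nat.card Q).Prime := ⟨hq⟩
    have h2 : t ∈ Subgroup.zpowers w.right⁻¹ :=
      mem_zpowers_of_prime_card rfl (inv_ne_one.2 hw)
    rw [← mem_powers_iff_mem_zpowers] at h2
    exact h2
  have hall : u.left = 1 := by
    funext t
    obtain ⟨k, rfl⟩ := hgen t
    exact hk k
  apply SemidirectProduct.ext
  · exact hall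
  · exact hu

/-- The order of the centraliser. -/
theorem BVV_cent {G Q A : Type} [Group G] [Finite G] [Group Q] [Fintype Q] [Group A] [Finite A]
    (hq : (Nat.card Q).Prime) (f : A →* Wr G Q) (hf : Function.Injective f) (x : A)
    (hx : (f x).right ≠ 1) :
    Nat.card (Subgroup.centralizer {x}) ∣ Nat.card Q * Nat.card G := by
  classical
  let C : Subgroup A := Subgroup.centralizer {x}
  let r : C →* Q := (SemidirectProduct.rightHom.comp f).comp C.subtype
  let K : Subgroup C := r.ker
  have hcard : Nat.card C = Nat.card r.range * Nat.card K := by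
    have h1 := Subgroup.card_eq_card_quotient_mul_card_subgroup K
    rw [h1]
    congr 1
    exact Nat.card_congr (QuotientGroup.quotientKerEquivRange r).toEquiv
  have hr : Nat.card r.range ∣ Nat.card Q := Subgroup.card_subgroup_dvd_card _
  have hright : ∀ a : K, (f ((a : C) : A)).right = 1 := fun a => a.2
  let e : K →* G :=
    { toFun := fun a => (f ((a : C) : A)).left 1
      map_one' := by simp
      map_mul' := by
        intro a b
        have h2 : (f (((a * b : K) : C) : A)) = f ((a : C) : A) * f ((b : C) : A) := by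
          simp
        change (f (((a * b : K) : C) : A)).left 1 = _
        rw [h2, SemidirectProduct.mul_left, hright a, map_one]
        rfl }
  have he : Function.Injective e := by
    rw [injective_iff_map_eq_one]
    intro a ha
    have hcomm : f ((a : C) : A) * f x = f x * f ((a : C) : A) := by
      rw [← map_mul, ← map_mul]
      congr 1
      exact ((Subgroup.mem_centralizer_singleton_iff).1 (a : C).2)
    have h3 := BVV_ker hq (f x) (f ((a : C) : A)) hx (hright a) hcomm ha
    have h4 : ((a : C) : A) = 1 := hf (by rw [h3, map_one])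
    exact Subtype.ext (Subtype.ext h4)
  have hK : Nat.card K ∣ Nat.card G := Subgroup.card_dvd_of_injective e he
  rw [show Nat.card (Subgroup.centralizer {x}) = Nat.card C from rfl, hcard]
  exact Nat.mul_dvd_mul hr hK

/-- Class length times the order of the centraliser. -/
theorem BVV_class {A : Type} [Group A] [Finite A] (x : A) :
    Nat.card (conjugatesOf x) * Nat.card (Subgroup.centralizer {x}) = Nat.card A := by
  classical
  have : Fintype A := Fintype.ofFinite A
  have h1 := MulAction.card_orbit_mul_card_stabilizer_eq_card_group (ConjAct A) x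
  have h2 : Nat.card (conjugatesOf x) = Fintype.card (MulAction.orbit (ConjAct A) x) := by
    rw [← Nat.card_eq_fintype_card]
    refine Nat.card_congr (Equiv.setCongr ?_)
    ext y
    rw [ConjAct.mem_orbit_conjAct]
    exact isConj_comm
  have h3 : Nat.card (Subgroup.centralizer {x}) =
      Fintype.card (MulAction.stabilizer (ConjAct A) x) := by
    rw [← Nat.card_eq_fintype_card]
    exact Subgroup.nat_card_centralizer_nat_card_stabilizer x
  rw [h2, h3, h1, Nat.card_eq_fintype_card]
  rfl

theorem BVV : BVV_stmt := by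
  classical
  intro p hp M hM hpM G Q _ _ _ _ hq hqp hG A _ _ f hf φ hφ d hd hqd x hx
  have hcl := BVV_class x
  have hce := BVV_cent hq f hf x hx
  obtain ⟨⟨m', hm'0, hm'⟩, -⟩ := (IRF A).2 φ hφ
  obtain ⟨m, hm, hmd⟩ := hd
  have hmm : m = m' := by
    have : (m : ℂ) = m' := by rw [← hm, ← hm']
    exact_mod_cast this
  subst hmm
  have : Fact p.Prime := ⟨hp⟩
  set L := Nat.card (conjugatesOf x) with hL
  set z := Nat.card (Subgroup.centralizer {x}) with hz
  have hA0 : Nat.card A ≠ 0 := Nat.card_pos.ne'
  have hG0 : Nat.card G ≠ 0 := Nat.card_pos.ne'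
  have hL0 : L ≠ 0 := by
    intro h
    rw [h, zero_mul] at hcl
    exact hA0 hcl.symm
  have hz0 : z ≠ 0 := by
    intro h
    rw [h, mul_zero] at hcl
    exact hA0 hcl.symm
  have hvz : padicValNat p z ≤ padicValNat p (Nat.card G) := by
    have h1 : padicValNat p z ≤ padicValNat p (Nat.card Q * Nat.card G) :=
      (padicValNat_dvd_iff_le (mul_ne_zero hq.ne_zero hG0)).1
        (dvd_trans pow_padicValNat_dvd hce)
    have hqf : Fact (Nat.card Q).Prime := ⟨hq⟩
    rw [padicValNat.mul hq.ne_zero hG0, padicValNat_primes (fun h => hqp h.symm), zero_add] at h1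
    exact h1
  have hvL : padicValNat p L + padicValNat p z = padicValNat p (Nat.card A) := by
    rw [← hcl, padicValNat.mul hL0 hz0]
  have hlt : padicValNat p m < padicValNat p L := by omega
  obtain ⟨s, hs⟩ : p ^ (padicValNat p m + 1) ∣ L :=
    (padicValNat_dvd_iff_le hL0).2 hlt
  obtain ⟨r, hr⟩ : p ^ (padicValNat p m) ∣ m := pow_padicValNat_dvd
  have hrp : ¬ p ∣ r := by
    rintro ⟨t, rfl⟩
    have h1 : p ^ (padicValNat p m + 1) ∣ m := ⟨t, by rw [pow_succ, mul_assoc]; exact hr⟩
    have h2 := (padicValNat_dvd_iff_le hm'0.ne').1 h1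
    omega
  -- the algebraic integers
  have hw := (all_INN A).1 φ hφ x
  have hy := INC A φ hφ x
  let w : integralClosure ℤ ℂ := ⟨omega φ x, hw⟩
  let y : integralClosure ℤ ℂ := ⟨φ x, hy⟩
  have hpk : ((p : ℂ) ^ padicValNat p m) ≠ 0 := pow_ne_zero _ (by exact_mod_cast hp.ne_zero)
  have hmC : (m : ℂ) ≠ 0 := by exact_mod_cast hm'0.ne'
  have hkey : (r : integralClosure ℤ ℂ) * w = (p : integralClosure ℤ ℂ) * (s * y) := by
    apply Subtype.ext
    push_cast
    change (r : ℂ) * omega φ x = (p : ℂ) * ((s : ℂ) * φ x)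
    unfold omega
    rw [hm, ← hL]
    have hLC : (L : ℂ) = (p : ℂ) ^ padicValNat p m * p * s := by
      rw [hs]; push_cast; ring
    have hmC' : (m : ℂ) = (p : ℂ) ^ padicValNat p m * r := by
      have : (m : ℂ) = ((p ^ padicValNat p m * r : ℕ) : ℂ) := by rw [← hr]
      rw [this]; push_cast; ring
    rw [mul_div_assoc', div_eq_iff hmC, hLC]
    conv_rhs => rw [hmC']
    ring
  have hmem : (r : integralClosure ℤ ℂ) * w ∈ M := by
    rw [hkey]
    exact M.mul_mem_right _ hpM
  have hprime := hM.isPrime
  rcases hprime.mem_or_mem hmem with h | h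
  · exfalso
    have hcop : IsCoprime (r : ℤ) (p : ℤ) := by
      rw [Nat.isCoprime_iff_coprime]
      exact ((Nat.Prime.coprime_iff_not_dvd hp).2 hrp).symm
    obtain ⟨a, b, hab⟩ := hcop
    have h1 : (1 : integralClosure ℤ ℂ) ∈ M := by
      have h2 : ((a * r + b * p : ℤ) : integralClosure ℤ ℂ) = 1 := by rw [hab]; simp
      rw [← h2]
      push_cast
      exact M.add_mem (M.mul_mem_left _ h) (M.mul_mem_left _ hpM)
    exact hM.ne_top ((Ideal.eq_top_iff_one M).2 h1)
  · exact ⟨w, h, rfl⟩

end Pool.Agent.DD
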